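import Mathlib
import Pool.Agent.N108.ZZ.PrimeG

set_option autoImplicit false

/-!
# The strong Nagata conjecture for all curves with `K C ≤ 5`

Any number `n ≥ 4` of very general points: an irreducible curve of arithmetic genus `g > 0` with
`K C ≤ 5` has `C ^ 2 > 0`, or `g = 1`, `C ^ 2 = K C = 0`.
-/

namespace Pool.Agent.Results.MP_b180eb_ag.CanonicalDegreeFive

open MvPolynomial Pool.Agent.TH167 Pool.Agent.TH167.SHDefs

theorem result (n : ℕ) (hn : 4 ≤ n) :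
    ∃ Z : ℕ → MvPolynomial (Fin n × Fin 2) ℂ, (∀ k, Z k ≠ 0) ∧
      ∀ P : Fin n → Fin 2 → ℂ,
        (∀ k, MvPolynomial.eval (fun ij : Fin n × Fin 2 => P ij.1 ij.2) (Z k) ≠ 0) →
        ∀ (d : ℕ) (w : Fin n → ℕ) (C : MvPolynomial (Fin 3) ℂ) (g : ℤ), Curve P C d w →
          2 * g = inter d w d w + interK d w + 2 → 0 < g → interK d w ≤ 5 →
          0 < inter d w d w ∨ (g = 1 ∧ inter d w d w = 0 ∧ interK d w = 0) := by
  obtain ⟨r, rfl⟩ : ∃ r, n = r + 4 := ⟨n - 4, by omega⟩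
  obtain ⟨Z, hZ, h⟩ := SH.exists_fam (Fin (r + 4) × Fin 2)
  refine ⟨Z, hZ, fun P hP0 d w C g hC hg hg0 hK => ?_⟩
  obtain ⟨h1, h2⟩ := Pool.Agent.N108.ZZ.prime_gen ((h _).1 hP0) hC hK
  have h3 := SH.two_chi d w
  rw [SH.virtdim_eq] at h2
  rw [SH.inter_eq] at hg ⊢
  rw [SH.interK_eq] at hg hK ⊢
  omega

end Pool.Agent.Results.MP_b180eb_ag.CanonicalDegreeFive
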